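import Pool.Agent.Helper77.SD.St

/-! MP_93a5ff_an, project SD, module TID: the equation for `f = tf`, `F = tF`. -/

set_option autoImplicit false

namespace Pool.Agent.Helper96.SD

open Pool.Agent.Helper77.SD
open MeasureTheory Metric Set
open scoped Gradient RealInnerProductSpace ENNReal

private lemma grad_apply {d : ℕ} (w : E d → ℝ) (x y : E d) : ⟪∇ w x, y⟫ = fderiv ℝ w x y := by
  rw [gradient]
  exact InnerProductSpace.toDual_symm_apply

private lemma grad_psi {d : ℕ} (c w : E d → ℝ) (τ : ℝ) (η x : E d) (hc : ContDiff ℝ 1 c) (hpos : ∀ x, 0 < c x)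
    (hw : ContDiff ℝ 1 w) :
    ∇ (fun x => wt c τ η x * (c x)⁻¹ * w x) x =
      (wt c τ η x * (c x)⁻¹) • (∇ w x + w x • (τ • η - (1 / 2 : ℝ) • lg c x)) := by
  have hcx := hpos x
  have h0 : HasFDerivAt c (fderiv ℝ c x) x := (hc.differentiable (by norm_num) x).hasFDerivAt
  have h1 := h0.sqrt hcx.ne'
  have h2 : HasFDerivAt (fun x : E d => τ * ⟪η, x⟫) (τ • (innerSL ℝ η : E d →L[ℝ] ℝ)) x :=
    ((innerSL ℝ η : E d →L[ℝ] ℝ).hasFDerivAt (x := x)).const_mul τ
  have h3 := h2.exp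
  have h4 : HasFDerivAt (fun x => (c x)⁻¹) (-(c x ^ 2)⁻¹ • fderiv ℝ c x) x :=
    (hasDerivAt_inv hcx.ne').comp_hasFDerivAt x h0
  have h5 : HasFDerivAt w (fderiv ℝ w x) x := (hw.differentiable (by norm_num) x).hasFDerivAt
  have h6 := ((h1.mul h3).mul h4).mul h5
  have h7 : HasGradientAt (fun x => wt c τ η x * (c x)⁻¹ * w x)
      ((wt c τ η x * (c x)⁻¹) • (∇ w x + w x • (τ • η - (1 / 2 : ℝ) • lg c x))) x := by
    rw [hasGradientAt_iff_hasFDerivAt]
    refine h6.congr_fderiv ?_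
    ext y
    have hs : √(c x) ^ 2 = c x := Real.sq_sqrt hcx.le
    have hs0 : 0 < √(c x) := Real.sqrt_pos.2 hcx
    simp only [InnerProductSpace.toDual_apply_apply, inner_smul_left, inner_add_left, inner_sub_left, grad_apply, lg, wt,
      add_apply, smul_apply, smul_eq_mul, innerSL_apply_apply,
      conj_trivial, Pi.mul_apply]
    generalize fderiv ℝ w x y = wy
    generalize fderiv ℝ c x y = cy
    generalize ⟪η, y⟫ = ηy
    generalize Real.exp (τ * ⟪η, x⟫) = e
    generalize w x = w0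
    rw [← hs]
    generalize √(c x) = s at hs hs0
    rw [Real.sqrt_sq hs0.le]
    field_simp
    ring
  exact h7.gradient

private lemma cont_lg {d : ℕ} (c : E d → ℝ) (hc : ContDiff ℝ 1 c) (hpos : ∀ x, 0 < c x) : Continuous (lg c) :=
  (hc.continuous.inv₀ fun x => (hpos x).ne').smul (continuous_grad hc)

private lemma cont_wt {d : ℕ} (c : E d → ℝ) (τ : ℝ) (η : E d) (hc : ContDiff ℝ 1 c) (hpos : ∀ x, 0 < c x) :
    ContDiff ℝ 1 (wt c τ η) := by
  unfold wt
  refine ContDiff.mul (hc.sqrt fun x => (hpos x).ne') (Real.contDiff_exp.comp ?_)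
  exact contDiff_const.mul ((innerSL ℝ η : E d →L[ℝ] ℝ).contDiff)

theorem hTID (h : StLIN) : StTID := by
  intro d l η B c lam Λ c0 c1 P δ M τ A V u G hm hA hu hH g Γ hg
  have hpos : ∀ x, 0 < c x := fun x => lt_of_lt_of_le hm.c0_pos (hm.lo x)
  have hcinv : ∀ x, (c x)⁻¹ ≤ c0⁻¹ := fun x => inv_anti₀ hm.c0_pos (hm.lo x)
  have hlgc := cont_lg c hm.smooth hpos
  set f := tf c τ η u with hf
  set F := tF c τ η u G with hF
  have hcinvc : Continuous fun x => (c x)⁻¹ := hm.smooth.continuous.inv₀ fun x => (hpos x).ne'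
  -- the fields
  obtain ⟨α, hα⟩ : ∃ α : E d → E d, α = fun x => τ • η + (1 / 2 : ℝ) • lg c x := ⟨_, rfl⟩
  obtain ⟨β, hβ⟩ : ∃ β : E d → E d, β = fun x => τ • η - (1 / 2 : ℝ) • lg c x := ⟨_, rfl⟩
  have hαc : Continuous α := by rw [hα]; fun_prop
  have hβc : Continuous β := by rw [hβ]; fun_prop
  have hP := hm.P_nonneg
  have hlgb : ∀ x, ‖(1 / 2 : ℝ) • lg c x‖ ≤ P := fun x => by
    rw [norm_smul]
    have h1 : ‖lg c x‖ ≤ P := hm.bddc x
    have h2 : ‖(1 / 2 : ℝ)‖ = 1 / 2 := by rw [Real.norm_eq_abs, abs_of_pos (by norm_num)]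
    rw [h2]
    have := norm_nonneg (lg c x)
    linarith
  have hαb : ∀ x, ‖α x‖ ≤ |τ| * ‖η‖ + P := fun x => by
    rw [hα]
    refine (norm_add_le _ _).trans (add_le_add ?_ (hlgb x))
    rw [norm_smul, Real.norm_eq_abs]
  have hβb : ∀ x, ‖β x‖ ≤ |τ| * ‖η‖ + P := fun x => by
    rw [hβ]
    refine (norm_sub_le _ _).trans (add_le_add ?_ (hlgb x))
    rw [norm_smul, Real.norm_eq_abs]
  have hYn : 0 ≤ |τ| * ‖η‖ + P := by positivity
  -- `F - f α`
  have hfα : L2 (fun x => f x • α x) := by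
    refine l2_of_le (K := |τ| * ‖η‖ + P) hH.l2 (hH.l2.1.smul hαc.aestronglyMeasurable) fun x => ?_
    rw [norm_smul, mul_comm]
    exact mul_le_mul_of_nonneg_right (hαb x) (norm_nonneg _)
  have hv : L2 (fun x => F x - f x • α x) := hH.l2G.sub hfα
  have hAn : ∀ x, ‖A x‖ ≤ c1 * Λ + δ := fun x => by
    have h1 : A x = (A x - c x • B x) + c x • B x := by abel
    rw [h1]
    refine (norm_add_le _ _).trans ?_
    rw [norm_smul, Real.norm_eq_abs, abs_of_pos (hpos x)]
    have h2 : c x * ‖B x‖ ≤ c1 * Λ := mul_le_mul (hm.hi x) (hm.bddB x) (norm_nonneg _)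
      ((hpos x).le.trans (hm.hi x))
    linarith [hA.close x]
  have hAnn : 0 ≤ c1 * Λ + δ := (norm_nonneg _).trans (hAn 0)
  obtain ⟨a, ha⟩ : ∃ a : E d → E d, a = fun x => (c x)⁻¹ • A x (F x - f x • α x) := ⟨_, rfl⟩
  have haL : L2 a := by
    refine l2_of_le (K := c0⁻¹ * (c1 * Λ + δ)) hv ?_ fun x => ?_
    · rw [ha]
      refine hcinvc.aestronglyMeasurable.smul ?_
      exact (isBoundedBilinearMap_apply (𝕜 := ℝ) (E := E d) (F := E d)).continuous.comp_aestronglyMeasurable₂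
        hA.measA.aestronglyMeasurable hv.1
    · rw [ha]
      simp only
      rw [norm_smul, Real.norm_eq_abs, abs_of_pos (inv_pos.2 (hpos x)), mul_assoc]
      refine mul_le_mul (hcinv x) ?_ (norm_nonneg _) (inv_nonneg.2 hm.c0_pos.le)
      exact (A x).le_of_opNorm_le (hAn x) _
  have haβ : L2 (fun x => ⟪a x, β x⟫) := by
    refine l2_of_le (K := |τ| * ‖η‖ + P) haL (haL.1.inner hβc.aestronglyMeasurable) fun x => ?_
    refine (norm_inner_le_norm _ _).trans ?_
    rw [mul_comm]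
    exact mul_le_mul_of_nonneg_right (hβb x) (norm_nonneg _)
  have hVf : L2 (fun x => (c x)⁻¹ * (V x * f x)) := by
    refine l2_of_le (K := c0⁻¹ * M) hH.l2 ?_ fun x => ?_
    · exact hcinvc.aestronglyMeasurable.mul (hA.measV.aestronglyMeasurable.mul hH.l2.1)
    · rw [norm_mul, norm_mul, Real.norm_eq_abs, abs_of_pos (inv_pos.2 (hpos x)), mul_assoc]
      refine mul_le_mul (hcinv x) ?_ (by positivity) (inv_nonneg.2 hm.c0_pos.le)
      exact mul_le_mul_of_nonneg_right (hA.bddV x) (norm_nonneg _)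
  obtain ⟨b, hb⟩ : ∃ b : E d → ℝ, b = fun x => ⟪a x, β x⟫ - (c x)⁻¹ * (V x * f x) := ⟨_, rfl⟩
  have hbL : L2 b := by rw [hb]; exact haβ.sub hVf
  -- testing
  have key : ∀ w : E d → ℝ, ContDiff ℝ 1 w → HasCompactSupport w → (∫ x, ⟪a x, ∇ w x⟫) + ∫ x, b x * w x = 0 := by
    intro w hw hwc
    have hψ1 : ContDiff ℝ 1 (fun x => wt c τ η x * (c x)⁻¹ * w x) :=
      ((cont_wt c τ η hm.smooth hpos).mul (hm.smooth.inv fun x => (hpos x).ne')).mul hw
    have hψ2 : HasCompactSupport (fun x => wt c τ η x * (c x)⁻¹ * w x) := hwc.mul_left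
    have h1 := hu.eq _ hψ1 hψ2
    have h2 : ∀ x, ⟪A x (G x), ∇ (fun x => wt c τ η x * (c x)⁻¹ * w x) x⟫ = ⟪a x, ∇ w x⟫ + ⟪a x, β x⟫ * w x := by
      intro x
      rw [grad_psi c w τ η x hm.smooth hpos hw]
      have h3 : F x - f x • α x = wt c τ η x • G x := by
        rw [hF, hf, hα]
        simp only [tF, tf]
        module
      have h4 : a x = (wt c τ η x * (c x)⁻¹) • A x (G x) := by
        rw [ha]
        simp only
        rw [h3, map_smul, smul_smul, mul_comm]
      rw [h4, hβ]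
      simp only [inner_smul_left, inner_smul_right, inner_add_right, conj_trivial]
      ring
    have h5 : ∀ x, V x * u x * (wt c τ η x * (c x)⁻¹ * w x) = (c x)⁻¹ * (V x * f x) * w x := by
      intro x
      rw [hf]
      simp only [tf]
      ring
    simp only [h2, h5] at h1
    have hwL := l2_of_compact hw.continuous hwc
    rw [integral_add (integrable_inner haL (l2_grad hw hwc)) (integrable_mul haβ hwL)] at h1
    have h6 : ∫ x, b x * w x = (∫ x, ⟪a x, β x⟫ * w x) - ∫ x, (c x)⁻¹ * (V x * f x) * w x := by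
      rw [← integral_sub (integrable_mul haβ hwL) (integrable_mul hVf hwL)]
      refine integral_congr_ae (Filter.Eventually.of_forall fun x => ?_)
      rw [hb]
      simp only
      ring
    rw [h6]
    linarith
  have hfin := h d a b haL hbL key g Γ hg
  have h6 : ∫ x, b x * g x = (∫ x, ⟪a x, β x⟫ * g x) - ∫ x, (c x)⁻¹ * (V x * f x) * g x := by
    rw [← integral_sub (integrable_mul haβ hg.l2) (integrable_mul hVf hg.l2)]
    refine integral_congr_ae (Filter.Eventually.of_forall fun x => ?_)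
    rw [hb]
    simp only
    ring
  have h7 : ∫ x, (c x)⁻¹ * ⟪A x (F x - f x • (τ • η + (1 / 2 : ℝ) • lg c x)),
      Γ x + g x • (τ • η - (1 / 2 : ℝ) • lg c x)⟫ = (∫ x, ⟪a x, Γ x⟫) + ∫ x, ⟪a x, β x⟫ * g x := by
    rw [← integral_add (integrable_inner haL hg.l2G) (integrable_mul haβ hg.l2)]
    refine integral_congr_ae (Filter.Eventually.of_forall fun x => ?_)
    rw [ha, hα, hβ]
    simp only [inner_smul_left, inner_smul_right, inner_add_right, conj_trivial]
    ring
  have h8 : ∫ x, (c x)⁻¹ * (V x * (f x * g x)) = ∫ x, (c x)⁻¹ * (V x * f x) * g x := by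
    refine integral_congr_ae (Filter.Eventually.of_forall fun x => ?_)
    simp only
    ring
  rw [h7, h8]
  rw [h6] at hfin
  linarith

end Pool.Agent.Helper96.SD
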